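import Pool.Agent.Helper51.LPS.St

/-!
# Project LPS, module FLAT: the flat section is as large as the projection
-/

set_option autoImplicit false

namespace Pool.Agent.Helper55.LPS

open MeasureTheory Pool.Helper51.PSB Pool.Helper51.LPS

private theorem ex_orth (n : ℕ) (hn : 2 ≤ n) (e : EuclideanSpace ℝ (Fin n)) :
    ∃ v : EuclideanSpace ℝ (Fin n), ‖v‖ = 1 ∧ (inner ℝ v e : ℝ) = 0 := by
  have h1 : (Submodule.span ℝ {e})ᗮ ≠ ⊥ := by
    intro h
    rw [Submodule.orthogonal_eq_bot_iff] at h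
    have h2 : Module.finrank ℝ (Submodule.span ℝ {e}) ≤ 1 := (finrank_span_le_card ({e} : Set (EuclideanSpace ℝ (Fin n)))).trans (by simp)
    rw [h, finrank_top, finrank_euclideanSpace, Fintype.card_fin] at h2
    omega
  obtain ⟨w, hw, hw0⟩ := Submodule.exists_mem_ne_zero_of_ne_bot h1
  have hwn : ‖w‖ ≠ 0 := norm_ne_zero_iff.2 hw0
  refine ⟨‖w‖⁻¹ • w, ?_, ?_⟩
  · rw [norm_smul, norm_inv, norm_norm, inv_mul_cancel₀ hwn]
  · rw [inner_smul_left, real_inner_comm]
    have h3 := Submodule.mem_orthogonal_singleton_iff_inner_right.1 hw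
    rw [h3, mul_zero]

private theorem touch (n : ℕ) (K : Set (EuclideanSpace ℝ (Fin n)))
    (e c : EuclideanSpace ℝ (Fin n)) (r ε : ℝ) (hK : IsCompact K) (hne : K.Nonempty)
    (he : ‖e‖ = 1) (hε : 0 < ε) (hr : 0 ≤ r)
    (hb : ∀ u : EuclideanSpace ℝ (Fin n), ‖u‖ = 1 → |(inner ℝ u e : ℝ)| < ε →
      IsLUB ((fun x => (inner ℝ x u : ℝ)) '' K) ((inner ℝ c u : ℝ) + r))
    (v : EuclideanSpace ℝ (Fin n)) (hv : ‖v‖ = 1) (hve : (inner ℝ v e : ℝ) = 0) :
    c + r • v ∈ K := by
  have hc : ContinuousOn (fun x : EuclideanSpace ℝ (Fin n) => (inner ℝ x v : ℝ)) K := by fun_prop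
  obtain ⟨z, hz, hmax⟩ := hK.exists_isMaxOn hne hc
  have hlub := hb v hv (by rw [hve, abs_zero]; exact hε)
  have hgr : IsGreatest ((fun x => (inner ℝ x v : ℝ)) '' K) (inner ℝ z v) := by
    refine ⟨⟨z, hz, rfl⟩, ?_⟩
    rintro _ ⟨x, hx, rfl⟩
    exact hmax hx
  have hzv : (inner ℝ z v : ℝ) = inner ℝ c v + r := hgr.isLUB.unique hlub
  have hyv : (inner ℝ (z - c) v : ℝ) = r := by
    rw [inner_sub_left, hzv]
    ring
  have hvv : (inner ℝ v v : ℝ) = 1 := by
    rw [real_inner_self_eq_norm_sq, hv]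
    norm_num
  have key : z - c - r • v = 0 := by
    by_contra hne0
    set w := z - c - r • v with hw
    have hwpos : 0 < ‖w‖ := norm_pos_iff.2 hne0
    have hwv : (inner ℝ w v : ℝ) = 0 := by
      rw [hw, inner_sub_left, inner_smul_left, hyv, hvv]
      simp
    have hwy : (inner ℝ (z - c) w : ℝ) = ‖w‖ ^ 2 := by
      have : z - c = w + r • v := by rw [hw]; abel
      rw [this, inner_add_left, inner_smul_left, real_inner_comm w v, hwv,
        real_inner_self_eq_norm_sq]
      simp
    set t := ‖w‖⁻¹ • w with ht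
    have htn : ‖t‖ = 1 := by
      rw [ht, norm_smul, norm_inv, norm_norm, inv_mul_cancel₀ hwpos.ne']
    have htt : (inner ℝ t t : ℝ) = 1 := by
      rw [real_inner_self_eq_norm_sq, htn]
      norm_num
    have hvt : (inner ℝ v t : ℝ) = 0 := by
      rw [ht, inner_smul_right, real_inner_comm, hwv, mul_zero]
    have hyt : (inner ℝ (z - c) t : ℝ) = ‖w‖ := by
      rw [ht, inner_smul_right, hwy]
      field_simp
    set s := min (min (ε / 2) 1) (‖w‖ / (2 * (r + 1))) with hs
    have hs0 : 0 < s := by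
      rw [hs]
      refine lt_min (lt_min (by linarith) one_pos) (by positivity)
    have hs1 : s ≤ 1 := (min_le_left _ _).trans (min_le_right _ _)
    have hs2 : s ≤ ε / 2 := (min_le_left _ _).trans (min_le_left _ _)
    have hs3 : s ≤ ‖w‖ / (2 * (r + 1)) := min_le_right _ _
    have hun : ‖Real.cos s • v + Real.sin s • t‖ = 1 := by
      have h1 : ‖Real.cos s • v + Real.sin s • t‖ ^ 2 = 1 := by
        rw [← real_inner_self_eq_norm_sq, inner_add_left, inner_add_right, inner_add_right]
        simp only [inner_smul_left, inner_smul_right, hvv, htt, hvt, real_inner_comm v t]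
        simp only [conj_trivial, mul_zero, add_zero, zero_add, mul_one]
        nlinarith [Real.sin_sq_add_cos_sq s]
      have h2 : (0 : ℝ) ≤ ‖Real.cos s • v + Real.sin s • t‖ := norm_nonneg _
      nlinarith
    have hsin : |Real.sin s| ≤ s := by
      rw [abs_of_nonneg (Real.sin_nonneg_of_nonneg_of_le_pi hs0.le (by linarith [Real.pi_gt_three]))]
      exact Real.sin_le hs0.le
    have hte : |(inner ℝ t e : ℝ)| ≤ 1 := by
      have := abs_real_inner_le_norm t e
      rw [htn, he, mul_one] at this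
      exact this
    have hband : |(inner ℝ (Real.cos s • v + Real.sin s • t) e : ℝ)| < ε := by
      rw [inner_add_left, inner_smul_left, inner_smul_left, hve, mul_zero, zero_add, abs_mul]
      simp only [conj_trivial]
      calc |Real.sin s| * |(inner ℝ t e : ℝ)| ≤ s * 1 :=
            mul_le_mul hsin hte (abs_nonneg _) hs0.le
        _ < ε := by linarith
    have hle := (hb _ hun hband).1 ⟨z, hz, rfl⟩
    have hle2 : Real.cos s * r + Real.sin s * ‖w‖ ≤ r := by
      have h1 : (inner ℝ (z - c) (Real.cos s • v + Real.sin s • t) : ℝ) =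
          Real.cos s * r + Real.sin s * ‖w‖ := by
        rw [inner_add_right, inner_smul_right, inner_smul_right, hyv, hyt]
      have h2 : (inner ℝ (z - c) (Real.cos s • v + Real.sin s • t) : ℝ) ≤ r := by
        rw [inner_sub_left]
        simp only at hle
        linarith
      linarith
    have hcos : 1 - s ^ 2 / 2 ≤ Real.cos s := Real.one_sub_sq_div_two_le_cos
    have hsin2 : s - s ^ 3 / 6 < Real.sin s := Real.sin_gt_sub_cube hs0
    have hsin3 : s / 2 ≤ Real.sin s := by nlinarith [mul_pos hs0 hs0]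
    have h5 : s / 2 * ‖w‖ ≤ r * (s ^ 2 / 2) := by
      have h6 : s / 2 * ‖w‖ ≤ Real.sin s * ‖w‖ := mul_le_mul_of_nonneg_right hsin3 hwpos.le
      have h7 : r * (1 - s ^ 2 / 2) ≤ r * Real.cos s := mul_le_mul_of_nonneg_left hcos hr
      nlinarith
    have h8 : ‖w‖ ≤ r * s := by
      have : s * ‖w‖ ≤ s * (r * s) := by nlinarith
      exact le_of_mul_le_mul_left this hs0
    have h9 : s * (2 * (r + 1)) ≤ ‖w‖ := by
      rwa [le_div_iff₀ (by positivity)] at hs3
    nlinarith
  have h : z = c + r • v := by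
    have := sub_eq_zero.1 key
    rw [← this]
    abel
  rw [← h]
  exact hz

theorem hFlat : StFlat := by
  intro n hn K e c r ε d hconv hK hne he hε hd hb
  have hee : (inner ℝ e e : ℝ) = 1 := by
    rw [real_inner_self_eq_norm_sq, he]
    norm_num
  have hle : ∀ x ∈ K, ∀ v : EuclideanSpace ℝ (Fin n), ‖v‖ = 1 → (inner ℝ v e : ℝ) = 0 →
      (inner ℝ (x - c) v : ℝ) ≤ r := by
    intro x hx v hv hve
    have h1 := (hb v hv (by rw [hve, abs_zero]; exact hε)).1 ⟨x, hx, rfl⟩
    rw [inner_sub_left]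
    simp only at h1
    linarith
  obtain ⟨v0, hv0, hv0e⟩ := ex_orth n hn e
  have hr : 0 ≤ r := by
    obtain ⟨x, hx⟩ := hne
    have h1 := hle x hx v0 hv0 hv0e
    have h2 := hle x hx (-v0) (by rw [norm_neg]; exact hv0) (by rw [inner_neg_left, hv0e, neg_zero])
    rw [inner_neg_right] at h2
    linarith
  have hT : ∀ v : EuclideanSpace ℝ (Fin n), ‖v‖ = 1 → (inner ℝ v e : ℝ) = 0 → c + r • v ∈ K :=
    fun v hv hve => touch n K e c r ε hK hne he hε hr hb v hv hve
  have hseg : ∀ v : EuclideanSpace ℝ (Fin n), ‖v‖ = 1 → (inner ℝ v e : ℝ) = 0 →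
      ∀ τ : ℝ, 0 ≤ τ → τ ≤ r → c + τ • v ∈ K := by
    intro v hv hve τ h0 h1
    rcases hr.eq_or_lt with h | h
    · have : τ = r := by linarith
      rw [this]
      exact hT v hv hve
    · have k1 := hT v hv hve
      have k2 := hT (-v) (by rw [norm_neg]; exact hv) (by rw [inner_neg_left, hve, neg_zero])
      have k3 := hconv k1 k2 (a := (r + τ) / (2 * r)) (b := (r - τ) / (2 * r))
        (by positivity) (div_nonneg (by linarith) (by linarith)) (by field_simp; ring)
      have k4 : ((r + τ) / (2 * r)) • (c + r • v) + ((r - τ) / (2 * r)) • (c + r • (-v)) =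
          c + τ • v := by
        have e1 : (r + τ) / (2 * r) + (r - τ) / (2 * r) = 1 := by field_simp; ring
        have e2 : (r + τ) / (2 * r) * r - (r - τ) / (2 * r) * r = τ := by field_simp; ring
        calc ((r + τ) / (2 * r)) • (c + r • v) + ((r - τ) / (2 * r)) • (c + r • (-v))
            = ((r + τ) / (2 * r) + (r - τ) / (2 * r)) • c +
              ((r + τ) / (2 * r) * r - (r - τ) / (2 * r) * r) • v := by module
          _ = c + τ • v := by rw [e1, e2, one_smul]
      rw [k4] at k3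
      exact k3
  have hmem : ∀ x ∈ K, x - (inner ℝ x e : ℝ) • e + (inner ℝ c e : ℝ) • e ∈ K := by
    intro x hx
    set q := x - c - (inner ℝ (x - c) e : ℝ) • e with hq
    have hqe : (inner ℝ q e : ℝ) = 0 := by
      rw [hq, inner_sub_left, inner_smul_left, hee]
      simp
    have heq : x - (inner ℝ x e : ℝ) • e + (inner ℝ c e : ℝ) • e = c + q := by
      rw [hq, inner_sub_left, sub_smul]
      abel
    rw [heq]
    by_cases h0 : q = 0
    · rw [h0]
      have := hseg v0 hv0 hv0e 0 le_rfl hr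
      rwa [zero_smul] at this
    · have hqp : 0 < ‖q‖ := norm_pos_iff.2 h0
      have hvn : ‖‖q‖⁻¹ • q‖ = 1 := by
        rw [norm_smul, norm_inv, norm_norm, inv_mul_cancel₀ hqp.ne']
      have hve : (inner ℝ (‖q‖⁻¹ • q) e : ℝ) = 0 := by
        rw [inner_smul_left, hqe, mul_zero]
      have h1 := hle x hx _ hvn hve
      have h2 : (inner ℝ (x - c) q : ℝ) = ‖q‖ ^ 2 := by
        have : x - c = q + (inner ℝ (x - c) e : ℝ) • e := by rw [hq]; abel
        conv_lhs => rw [this]
        rw [inner_add_left, inner_smul_left, real_inner_comm q e, hqe, real_inner_self_eq_norm_sq]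
        simp
      rw [inner_smul_right, h2] at h1
      have h3 : ‖q‖ ≤ r := by
        have : ‖q‖⁻¹ * ‖q‖ ^ 2 = ‖q‖ := by field_simp
        linarith
      have h4 := hseg _ hvn hve ‖q‖ hqp.le h3
      rwa [smul_smul, mul_inv_cancel₀ hqp.ne', one_smul] at h4
  have hiso : Isometry (fun y : EuclideanSpace ℝ (Fin n) => y + (inner ℝ c e : ℝ) • e) :=
    (IsometryEquiv.addRight ((inner ℝ c e : ℝ) • e)).isometry
  rw [← hiso.hausdorffMeasure_image (Or.inl hd)]
  refine measure_mono ?_
  rintro _ ⟨_, ⟨x, hx, rfl⟩, rfl⟩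
  refine ⟨hmem x hx, ?_⟩
  show (inner ℝ (x - (inner ℝ x e : ℝ) • e + (inner ℝ c e : ℝ) • e) e : ℝ) = inner ℝ c e
  rw [inner_add_left, inner_sub_left, inner_smul_left, inner_smul_left, hee]
  simp

end Pool.Agent.Helper55.LPS
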